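import Pool.Agent.K3h81.RL.Stm
import Pool.Agent.K3h73.RS.Cheb
import Pool.Agent.K3h23.RS.Tors

/-!
# Prime ideals with a given Frobenius automorphism
-/

set_option autoImplicit false

open NumberField IsDedekindDomain Filter Topology

noncomputable section

namespace Pool.Agent.K3h91.RL

open Pool.Agent.K3h30.RS Pool.Agent.K3h81.RL

/-- A set of positive proportion is not empty. -/
theorem exists_of_pos {F : Type} [Field F] [NumberField F] {P : HeightOneSpectrum (𝓞 F) → Prop}
    (h : PosProportion P) : ∃ v, P v := by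
  obtain ⟨c, hc, hX⟩ := h
  obtain ⟨X, hX1, hX2⟩ := (hX.and (eventually_ge_atTop 2)).exists
  by_contra hcon
  push Not at hcon
  have h0 : Nat.card {v : HeightOneSpectrum (𝓞 F) // P v ∧ Ideal.absNorm v.asIdeal ≤ X} = 0 := by
    have : IsEmpty {v : HeightOneSpectrum (𝓞 F) // P v ∧ Ideal.absNorm v.asIdeal ≤ X} :=
      ⟨fun v => hcon v.1 v.2.1⟩
    exact Nat.card_of_isEmpty
  rw [h0, Nat.cast_zero] at hX1
  have hpc : 0 < (Nat.primeCounting X : ℝ) := by
    have : Nat.primeCounting X ≠ 0 := by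
      rw [Ne, Nat.primeCounting_eq_zero_iff]
      omega
    exact_mod_cast Nat.pos_of_ne_zero this
  have := mul_pos hc hpc
  linarith

/-- One prime ideal with a given Frobenius automorphism. -/
theorem one {F H G : Type} [Field F] [NumberField F] [Field H] [NumberField H] [Algebra F H]
    [CommGroup G] [Finite G] [MulSemiringAction G H] [IsGaloisGroup G F H]
    (D : RubinData F H G) (bad : Finset (HeightOneSpectrum (𝓞 F))) (g : G) :
    ∃ v, v ∉ bad ∧ D.σ v = g := by
  classical
  have hcomm : SMulCommClass G F H := (inferInstance : IsGaloisGroup G F H).commutes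
  let Φ : H ≃ₐ[F] H := MulSemiringAction.toAlgEquiv F H g
  obtain ⟨v, hv, P, hPv, hP⟩ := exists_of_pos (Pool.Agent.K3h73.RS.t_CHEB F H Φ (bad ∪ D.S))
  rw [Finset.mem_union, not_or] at hv
  refine ⟨v, hv.1, ?_⟩
  have hfr : IsFrob (H := H) v g := by
    intro w' hw' x
    obtain ⟨γ, hγ⟩ := (Pool.Agent.K3h25.RS.t_TRANS F H G v P hPv).2 w' hw'
    rw [hγ, smul_sub, smul_pow', smul_smul, mul_comm γ g, ← smul_smul]
    exact hP (γ • x)
  exact Pool.Agent.K3h23.RS.t_FROBUNIQ F H G v (D.unramified v hv.2) (D.σ v) g (D.frob v hv.2) hfr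

theorem t_FRB : S_FRB := by
  intro F H G _ _ _ _ _ _ _ _ _ D bad K g
  classical
  induction K with
  | zero => exact ⟨∅, Finset.disjoint_empty_right _, rfl, by simp⟩
  | succ K ih =>
    obtain ⟨P, h1, h2, h3⟩ := ih
    obtain ⟨v, hv, hg⟩ := one D (bad ∪ P) g
    rw [Finset.mem_union, not_or] at hv
    refine ⟨insert v P, ?_, ?_, ?_⟩
    · rw [Finset.disjoint_insert_right]
      exact ⟨hv.1, h1⟩
    · rw [Finset.card_insert_of_notMem hv.2, h2]
    · intro w hw
      rcases Finset.mem_insert.1 hw with rfl | hw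
      · exact hg
      · exact h3 w hw

end Pool.Agent.K3h91.RL
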